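import Mathlib

/-!
# No lonely colour graphs have unbounded chromatic number

The graphs are spanning subgraphs of the Hamming graphs (cartesian powers of complete graphs), with
at most one edge on every axis-parallel line; the colour of an edge is its direction. Counting
all the choices of one pair on each line shows that for a large dimension some choice is not
`m`-colourable.
-/

set_option autoImplicit false

namespace Pool.Agent.Results.MP_2f2576_co.NoLonelyUnbounded

/-- Condition (i) for the edge colouring `c` of `X`: every vertex meets at most two edges of each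
colour. (Only the values of `c` on the edges of `X` matter.) -/
def AtMostTwo {V C : Type} (X : SimpleGraph V) (c : Sym2 V → C) : Prop :=
  ∀ (v : V) (k : C), {e ∈ X.incidenceSet v | c e = k}.encard ≤ 2

/-- Condition (iii) for the edge colouring `c` of `X`: in every circuit, each edge has the same
colour as some other edge of that circuit. -/
def NoLonely {V C : Type} (X : SimpleGraph V) (c : Sym2 V → C) : Prop :=
  ∀ (v : V) (p : X.Walk v v), p.IsCycle → ∀ e ∈ p.edges, ∃ f ∈ p.edges, f ≠ e ∧ c f = c e

/-- `X` is a no lonely colour graph: some edge colouring (with any set of colours) satisfies (i)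
and (iii). -/
def IsNoLonelyColourGraph {V : Type} (X : SimpleGraph V) : Prop :=
  ∃ (C : Type) (c : Sym2 V → C), AtMostTwo X c ∧ NoLonely X c

/-! ### The graphs -/

/-- the graph of a choice `w` of a pair of letters for every axis-parallel line of the cube
`[q]^(n+1)`; a line is given by its direction `i` and the other coordinates `z` -/
def gr {n q : ℕ} (w : Fin (n + 1) × (Fin n → Fin q) → Fin q × Fin q) :
    SimpleGraph (Fin (n + 1) → Fin q) :=
  SimpleGraph.fromRel fun x y => ∃ (i : Fin (n + 1)) (z : Fin n → Fin q),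
    x = i.insertNth (w (i, z)).1 z ∧ y = i.insertNth (w (i, z)).2 z

/-- the colour of a pair of vertices: the set of coordinates in which they differ -/
def col {n q : ℕ} : Sym2 (Fin (n + 1) → Fin q) → Set (Fin (n + 1)) :=
  Sym2.lift ⟨fun x y => {i | x i ≠ y i}, fun x y => by ext i; simp [ne_comm]⟩

theorem col_mk {n q : ℕ} (x y : Fin (n + 1) → Fin q) : col s(x, y) = {i | x i ≠ y i} := rfl

/-- adjacency in the graph: the two vertices are on a common line, where the pair of the line
consists of the two letters -/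
theorem adj_iff {n q : ℕ} {w : Fin (n + 1) × (Fin n → Fin q) → Fin q × Fin q}
    {x y : Fin (n + 1) → Fin q} (h : (gr w).Adj x y) :
    ∃ i : Fin (n + 1), x i ≠ y i ∧ i.removeNth x = i.removeNth y ∧
      (w (i, i.removeNth x) = (x i, y i) ∨ w (i, i.removeNth x) = (y i, x i)) := by
  rw [gr, SimpleGraph.fromRel_adj] at h
  obtain ⟨hne, ⟨i, z, hx, hy⟩ | ⟨i, z, hx, hy⟩⟩ := h
  · refine ⟨i, ?_, ?_, ?_⟩
    · intro h
      apply hne
      rw [hx, hy] at h ⊢
      simp only [Fin.insertNth_apply_same] at h
      rw [h]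
    · rw [hx, hy]; simp
    · left
      rw [hx, hy]; simp
  · refine ⟨i, ?_, ?_, ?_⟩
    · intro h
      apply hne
      rw [hx, hy] at h ⊢
      simp only [Fin.insertNth_apply_same] at h
      rw [h]
    · rw [hx, hy]; simp
    · right
      rw [hx, hy]; simp

theorem eq_of_removeNth {n q : ℕ} {x y : Fin (n + 1) → Fin q} {i : Fin (n + 1)}
    (h1 : x i = y i) (h2 : i.removeNth x = i.removeNth y) : x = y := by
  rw [← Fin.insertNth_self_removeNth i x, ← Fin.insertNth_self_removeNth i y, h1, h2]

theorem col_of_adj {n q : ℕ} {x y : Fin (n + 1) → Fin q} {i : Fin (n + 1)}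
    (h1 : x i ≠ y i) (h2 : i.removeNth x = i.removeNth y) : col s(x, y) = {i} := by
  rw [col_mk]
  ext j
  simp only [Set.mem_ofPred_eq, Set.mem_singleton_iff]
  constructor
  · intro h
    by_contra hj
    obtain ⟨k, hk⟩ := Fin.exists_succAbove_eq hj
    apply h
    have := congrFun h2 k
    simp only [Fin.removeNth] at this
    rw [← hk]; exact this
  · rintro rfl; exact h1

theorem atMostTwo_gr {n q : ℕ} (w : Fin (n + 1) × (Fin n → Fin q) → Fin q × Fin q) :
    AtMostTwo (gr w) col := by
  intro v k
  refine le_trans ?_ (by norm_num : (1 : ℕ∞) ≤ 2)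
  rw [Set.encard_le_one_iff]
  rintro a b ⟨ha, hak⟩ ⟨hb, hbk⟩
  rw [SimpleGraph.incidenceSet] at ha hb
  obtain ⟨x, rfl⟩ := Sym2.mem_iff_exists.1 ha.2
  obtain ⟨y, rfl⟩ := Sym2.mem_iff_exists.1 hb.2
  have hx := ha.1
  have hy := hb.1
  rw [SimpleGraph.mem_edgeSet] at hx hy
  obtain ⟨i, h1, h2, h3⟩ := adj_iff hx
  obtain ⟨j, g1, g2, g3⟩ := adj_iff hy
  have hij : i = j := by
    have e1 := col_of_adj h1 h2
    have e2 := col_of_adj g1 g2
    rw [hak] at e1
    rw [hbk, e1] at e2
    exact Set.singleton_injective e2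
  subst hij
  have hxy : x = y := by
    apply eq_of_removeNth (i := i) _ (h2.symm.trans g2)
    rcases h3 with h3 | h3 <;> rcases g3 with g3 | g3 <;> rw [h3] at g3 <;>
      simp only [Prod.mk.injEq] at g3
    · exact g3.2
    · exact absurd g3.1 g1
    · exact absurd g3.2 g1
    · exact g3.1
  rw [hxy]

/-- a walk whose edges do not change a function -/
theorem walk_const {V W : Type} {X : SimpleGraph V} (F : V → W) :
    ∀ {u v : V} (p : X.Walk u v), (∀ x y, s(x, y) ∈ p.edges → F x = F y) → F u = F v
  | _, _, .nil, _ => rfl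
  | u, v, .cons' _ w _ h p, hp => by
      have h1 : F u = F w := hp u w (by simp)
      have h2 : F w = F v := walk_const F p fun x y hxy => hp x y (by simp [hxy])
      exact h1.trans h2

/-- a trail in which exactly one edge changes a function -/
theorem walk_change {V W : Type} {X : SimpleGraph V} (F : V → W) (a b : V) (hab : F a ≠ F b) :
    ∀ {u v : V} (p : X.Walk u v), p.edges.Nodup → s(a, b) ∈ p.edges →
      (∀ x y, s(x, y) ∈ p.edges → s(x, y) ≠ s(a, b) → F x = F y) → F u ≠ F v
  | _, _, .nil, _, h, _ => by simp at h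
  | u, v, .cons' _ w _ h p, hn, he, hp => by
      rw [SimpleGraph.Walk.edges_cons, List.nodup_cons] at hn
      by_cases hw : s(u, w) = s(a, b)
      · have h2 : F w = F v := walk_const F p fun x y hxy => by
          apply hp x y (by simp [hxy])
          intro h3
          rw [h3, ← hw] at hxy
          exact hn.1 hxy
        have h1 : F u ≠ F w := by
          rcases Sym2.eq_iff.1 hw with ⟨rfl, rfl⟩ | ⟨rfl, rfl⟩
          · exact hab
          · exact hab.symm
        rw [← h2]; exact h1
      · have h1 : F u = F w := hp u w (by simp) hw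
        rw [h1]
        apply walk_change F a b hab p hn.2
        · rw [SimpleGraph.Walk.edges_cons, List.mem_cons] at he
          rcases he with he | he
          · exact absurd he.symm hw
          · exact he
        · intro x y hxy hne
          exact hp x y (by simp [hxy]) hne

theorem noLonely_gr {n q : ℕ} (w : Fin (n + 1) × (Fin n → Fin q) → Fin q × Fin q) :
    NoLonely (gr w) col := by
  intro v p hp e he
  by_contra hcon
  push Not at hcon
  induction e using Sym2.ind with
  | _ a b =>
    have hadj : (gr w).Adj a b := p.adj_of_mem_edges he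
    obtain ⟨i, h1, h2, -⟩ := adj_iff hadj
    refine walk_change (fun x => x i) a b h1 p hp.isTrail.edges_nodup he ?_ rfl
    intro x y hxy hne
    have hadj' : (gr w).Adj x y := p.adj_of_mem_edges hxy
    obtain ⟨j, g1, g2, -⟩ := adj_iff hadj'
    have h3 := hcon _ hxy hne
    rw [col_of_adj h1 h2, col_of_adj g1 g2] at h3
    by_contra h4
    have h5 : i ∈ col s(x, y) := h4
    rw [col_of_adj g1 g2, Set.mem_singleton_iff] at h5
    exact h3 (by rw [h5])

/-! ### Counting -/

/-- a colouring with `m` colours of a line with `m + 2` points has a monochromatic pair -/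
theorem exists_pair {m : ℕ} {V : Type} (f : V → Fin m) (g : Fin (m + 2) → V) :
    ∃ ab : Fin (m + 2) × Fin (m + 2), ab.1 ≠ ab.2 ∧ f (g ab.1) = f (g ab.2) := by
  obtain ⟨a, b, hne, h⟩ := Fintype.exists_ne_map_eq_of_card_lt (fun a => f (g a)) (by simp)
  exact ⟨(a, b), hne, h⟩

theorem exists_dim (m : ℕ) : ∃ n : ℕ,
    m ^ (m + 2) * ((m + 2) * (m + 2) - 1) ^ (n + 1) < ((m + 2) * (m + 2)) ^ (n + 1) := by
  set Q : ℕ := (m + 2) * (m + 2) with hQ
  have hQ4 : 4 ≤ Q := by rw [hQ]; nlinarith
  have hpos : (0 : ℝ) < ((Q - 1 : ℕ) : ℝ) := by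
    have : 0 < Q - 1 := by omega
    exact_mod_cast this
  have h1 : (1 : ℝ) < (Q : ℝ) / ((Q - 1 : ℕ) : ℝ) := by
    rw [one_lt_div hpos]
    have : Q - 1 < Q := by omega
    exact_mod_cast this
  obtain ⟨n, hn⟩ := pow_unbounded_of_one_lt ((m : ℝ) ^ (m + 2)) h1
  refine ⟨n, ?_⟩
  have h2 : (m : ℝ) ^ (m + 2) < ((Q : ℝ) / ((Q - 1 : ℕ) : ℝ)) ^ (n + 1) :=
    hn.trans_le (pow_le_pow_right₀ h1.le (by omega))
  rw [div_pow, lt_div_iff₀ (pow_pos hpos _)] at h2
  exact_mod_cast h2

theorem exists_not_colorable (m : ℕ) : ∃ (n : ℕ)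
    (w : Fin (n + 1) × (Fin n → Fin (m + 2)) → Fin (m + 2) × Fin (m + 2)),
    ¬ (gr w).Colorable m := by
  classical
  obtain ⟨n, hn⟩ := exists_dim m
  refine ⟨n, ?_⟩
  by_contra hcon
  push Not at hcon
  -- a monochromatic pair on every line, for every colouring
  have hpair : ∀ (f : (Fin (n + 1) → Fin (m + 2)) → Fin m)
      (l : Fin (n + 1) × (Fin n → Fin (m + 2))), ∃ ab : Fin (m + 2) × Fin (m + 2),
      ab.1 ≠ ab.2 ∧ f (l.1.insertNth ab.1 l.2) = f (l.1.insertNth ab.2 l.2) := fun f l =>
    exists_pair f fun a => (l.1.insertNth a l.2 : Fin (n + 1) → Fin (m + 2))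
  choose ab hne hab using hpair
  -- the choices for which `f` is proper
  let S : ((Fin (n + 1) → Fin (m + 2)) → Fin m) →
      Finset (Fin (n + 1) × (Fin n → Fin (m + 2)) → Fin (m + 2) × Fin (m + 2)) := fun f =>
    Fintype.piFinset fun l => Finset.univ.erase (ab f l)
  have hcover : (Finset.univ : Finset (Fin (n + 1) × (Fin n → Fin (m + 2)) →
      Fin (m + 2) × Fin (m + 2))) ⊆ Finset.univ.biUnion S := by
    intro w _
    obtain ⟨f⟩ := hcon w
    rw [Finset.mem_biUnion]
    refine ⟨fun x => f x, Finset.mem_univ _, ?_⟩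
    rw [Fintype.mem_piFinset]
    intro l
    rw [Finset.mem_erase]
    refine ⟨?_, Finset.mem_univ _⟩
    intro hw
    have hadj : (gr w).Adj (l.1.insertNth (w l).1 l.2) (l.1.insertNth (w l).2 l.2) := by
      rw [gr, SimpleGraph.fromRel_adj]
      refine ⟨?_, Or.inl ⟨l.1, l.2, rfl, rfl⟩⟩
      intro h
      have h1 := congrFun h l.1
      simp only [Fin.insertNth_apply_same] at h1
      rw [hw] at h1
      exact hne _ _ h1
    have h2 := f.valid hadj
    apply h2
    rw [hw]
    exact hab _ l
  have hcard := (Finset.card_le_card hcover).trans Finset.card_biUnion_le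
  have hS : ∀ f, (S f).card = ((m + 2) * (m + 2) - 1) ^ ((n + 1) * (m + 2) ^ n) := by
    intro f
    simp only [S, Fintype.card_piFinset, Finset.card_erase_of_mem (Finset.mem_univ _),
      Finset.card_univ, Fintype.card_prod, Fintype.card_fin, Finset.prod_const,
      Fintype.card_fun]
  simp only [hS, Finset.sum_const, Finset.card_univ, Fintype.card_prod, Fintype.card_fin,
    Fintype.card_fun, smul_eq_mul] at hcard
  have h1 : ((m + 2) * (m + 2)) ^ ((n + 1) * (m + 2) ^ n) =
      (((m + 2) * (m + 2)) ^ (n + 1)) ^ ((m + 2) ^ n) := by rw [← pow_mul]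
  have h2 : m ^ (m + 2) ^ (n + 1) * ((m + 2) * (m + 2) - 1) ^ ((n + 1) * (m + 2) ^ n) =
      (m ^ (m + 2) * ((m + 2) * (m + 2) - 1) ^ (n + 1)) ^ ((m + 2) ^ n) := by
    rw [mul_pow, ← pow_mul, ← pow_mul]
    congr 2
    ring
  rw [h1, h2] at hcard
  have h3 := (Nat.pow_le_pow_iff_left (pow_pos (by omega : 0 < m + 2) n).ne').1 hcard
  exact absurd h3 (not_le.2 hn)

/-- **The answer to Q2 is negative**: for every finite `m` there is a (finite) no lonely colour
graph whose chromatic number is larger than `m`. -/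
theorem result : ∀ m : ℕ, ∃ (V : Type) (_ : Finite V) (X : SimpleGraph V),
    IsNoLonelyColourGraph X ∧ (m : ℕ∞) < X.chromaticNumber := by
  intro m
  obtain ⟨n, w, hw⟩ := exists_not_colorable m
  refine ⟨Fin (n + 1) → Fin (m + 2), inferInstance, gr w,
    ⟨Set (Fin (n + 1)), col, atMostTwo_gr w, noLonely_gr w⟩, ?_⟩
  rw [← not_le, SimpleGraph.chromaticNumber_le_iff_colorable]
  exact hw

end Pool.Agent.Results.MP_2f2576_co.NoLonelyUnbounded
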